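import Pool.Agent.Helper55.LE.SEC0

/-! S3, S4 : tails of the sector kernels, truncation -/

open MeasureTheory Set Filter Topology
open scoped Pointwise

noncomputable section

namespace LEP.S34

open LEP LEP.SEC0

theorem meas_arm (i : Fin 2) : MeasurableSet (Arm i) := by
  have h1 : MeasurableSet {z : ℂ | z ≠ 0} := (measurableSet_singleton (0 : ℂ)).compl
  have h2 : MeasurableSet {z : ℂ | al i < Complex.arg z} :=
    measurableSet_lt measurable_const Complex.measurable_arg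
  have h3 : MeasurableSet {z : ℂ | Complex.arg z < be i} :=
    measurableSet_lt Complex.measurable_arg measurable_const
  exact h1.inter (h2.inter h3)

theorem meas_armR (i : Fin 2) (R : ℝ) : MeasurableSet (ArmR i R) :=
  (meas_arm i).inter (measurableSet_lt measurable_norm measurable_const)

theorem meas_pw (i : Fin 2) : Measurable (pw i) := by
  unfold pw
  exact ((measurable_const.mul measurable_id).pow_const _)

theorem meas_GA (i : Fin 2) (x : ℂ) : Measurable (fun y => GA i x y) := by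
  unfold GA
  have h := meas_pw i
  have him : Measurable (fun y => (pw i y).im) := Complex.measurable_im.comp h
  have hn : Measurable (fun y => ‖pw i x - pw i y‖) := (measurable_const.sub h).norm
  exact measurable_const.mul (Real.measurable_log.comp
    (measurable_const.add ((measurable_const.mul him).div (hn.pow_const 2))))

theorem meas_GAR (i : Fin 2) (R : ℝ) (x : ℂ) : Measurable (fun y => GAR i R x y) := by
  unfold GAR
  refine (meas_GA i x).sub ((meas_GA i x).comp ?_)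
  exact measurable_const.div (Complex.continuous_conj.measurable)

theorem pow_id {x R : ℝ} (hx : 0 < x) (hR : 0 < R) {m : ℕ} (hm : 1 ≤ m) :
    (x / R) ^ (2 * m) * R ^ 2 = x ^ 2 * (x / R) ^ (2 * m - 2) := by
  obtain ⟨k, rfl⟩ : ∃ k, m = k + 1 := ⟨m - 1, by omega⟩
  have h1 : 2 * (k + 1) - 2 = 2 * k := by omega
  have h2 : 2 * (k + 1) = 2 * k + 2 := by ring
  rw [h1, h2, pow_add]
  field_simp

/-- exterior integral -/
def Kext (m : ℕ) : ℝ := ∫ z : ℂ, (1 + ‖z‖) ^ (-((2 * m : ℕ) : ℝ))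

theorem int_ext {m : ℕ} (hm : 2 ≤ m) :
    Integrable (fun z : ℂ => (1 + ‖z‖) ^ (-((2 * m : ℕ) : ℝ))) := by
  refine integrable_one_add_norm ?_
  rw [Complex.finrank_real_complex]
  exact_mod_cast (by omega : 2 < 2 * m)

theorem Kext_nonneg (m : ℕ) : 0 ≤ Kext m := integral_nonneg (fun z => by positivity)

theorem int_scaled {m : ℕ} (hm : 2 ≤ m) {R : ℝ} (hR : 0 < R) :
    Integrable (fun z : ℂ => (1 + ‖R⁻¹ • z‖) ^ (-((2 * m : ℕ) : ℝ))) ∧
    ∫ z : ℂ, (1 + ‖R⁻¹ • z‖) ^ (-((2 * m : ℕ) : ℝ)) = R ^ 2 * Kext m := by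
  refine ⟨(int_ext hm).comp_smul (inv_ne_zero hR.ne'), ?_⟩
  rw [Measure.integral_comp_inv_smul volume (fun z : ℂ => (1 + ‖z‖) ^ (-((2 * m : ℕ) : ℝ))) R,
    Complex.finrank_real_complex, abs_of_pos (by positivity), smul_eq_mul]
  rfl

theorem ext_bound {m : ℕ} {x R t : ℝ} (hx : 0 ≤ x) (hR : 0 < R) (ht : R ≤ t) :
    (x / t) ^ (2 * m) ≤ 4 ^ m * (x / R) ^ (2 * m) * (1 + t / R) ^ (-((2 * m : ℕ) : ℝ)) := by
  have ht0 : 0 < t := lt_of_lt_of_le hR ht
  have h1 : 1 ≤ t / R := by rw [le_div_iff₀ hR]; linarith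
  rw [Real.rpow_neg (by positivity), Real.rpow_natCast]
  have h2 : (1 + t / R) ^ (2 * m) ≤ 4 ^ m * (t / R) ^ (2 * m) := by
    calc (1 + t / R) ^ (2 * m) ≤ (2 * (t / R)) ^ (2 * m) :=
          pow_le_pow_left₀ (by positivity) (by linarith) _
      _ = 4 ^ m * (t / R) ^ (2 * m) := by rw [mul_pow, pow_mul 2 2 m]; norm_num
  rw [← div_eq_mul_inv, le_div_iff₀ (by positivity)]
  calc (x / t) ^ (2 * m) * (1 + t / R) ^ (2 * m)
      ≤ (x / t) ^ (2 * m) * (4 ^ m * (t / R) ^ (2 * m)) :=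
        mul_le_mul_of_nonneg_left h2 (by positivity)
    _ = 4 ^ m * (x / R) ^ (2 * m) := by
      rw [mul_left_comm, ← mul_pow]
      congr 2
      field_simp

/-- upper bound of the tail -/
theorem S3_upper (h1 : ST_S1) (i : Fin 2) (x : ℂ) (hx : x ∈ Arm i) (R : ℝ) (hR : 2 * ‖x‖ ≤ R) :
    ∫ y in Arm i \ ArmR i R, (GA i x y) ^ 2 ≤
      (4 * 4 ^ mm i * Kext (mm i)) * ‖x‖ ^ 2 * (‖x‖ / R) ^ (2 * mm i - 2) := by
  have hxn : 0 < ‖x‖ := norm_pos_iff.2 hx.1
  have hR0 : 0 < R := by linarith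
  have hm3 := mm_ge i
  have hint := (h1.1 i x hx).1
  obtain ⟨hs1, hs2⟩ := int_scaled (m := mm i) (by omega) hR0
  set f : ℂ → ℝ := fun y => 4 * 4 ^ mm i * (‖x‖ / R) ^ (2 * mm i) *
    (1 + ‖R⁻¹ • y‖) ^ (-((2 * mm i : ℕ) : ℝ)) with hf
  have hfi : Integrable f := hs1.const_mul _
  have hfn : ∀ y, 0 ≤ f y := fun y => by simp only [hf]; positivity
  have hms : MeasurableSet (Arm i \ ArmR i R) := (meas_arm i).diff (meas_armR i R)
  calc ∫ y in Arm i \ ArmR i R, (GA i x y) ^ 2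
      ≤ ∫ y in Arm i \ ArmR i R, f y := by
        refine setIntegral_mono_on (hint.mono_set sdiff_subset) hfi.integrableOn hms ?_
        intro y hy
        have hyA : y ∈ Arm i := hy.1
        have hyR : R ≤ ‖y‖ := by
          by_contra hcon
          exact hy.2 ⟨hyA, not_le.1 hcon⟩
        have h3 : GA i x y ≤ 2 * (‖x‖ / ‖y‖) ^ mm i := by
          rw [GA_symm]
          exact GA_far hyA hx (by linarith)
        have h4 := GA_nonneg hx hyA
        have h5 : (GA i x y) ^ 2 ≤ (2 * (‖x‖ / ‖y‖) ^ mm i) ^ 2 := pow_le_pow_left₀ h4 h3 2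
        have h6 : (2 * (‖x‖ / ‖y‖) ^ mm i) ^ 2 = 4 * (‖x‖ / ‖y‖) ^ (2 * mm i) := by
          rw [mul_pow, ← pow_mul, mul_comm (mm i) 2]; norm_num
        have h7 := ext_bound (m := mm i) hxn.le hR0 hyR
        have h8 : ‖R⁻¹ • y‖ = ‖y‖ / R := by
          rw [norm_smul, Real.norm_of_nonneg (by positivity), inv_mul_eq_div]
        simp only [hf]
        rw [h8]
        calc (GA i x y) ^ 2 ≤ 4 * (‖x‖ / ‖y‖) ^ (2 * mm i) := by rw [← h6]; exact h5
          _ ≤ 4 * (4 ^ mm i * (‖x‖ / R) ^ (2 * mm i) * (1 + ‖y‖ / R) ^ (-((2 * mm i : ℕ) : ℝ))) :=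
            mul_le_mul_of_nonneg_left h7 (by norm_num)
          _ = _ := by ring
    _ ≤ ∫ y, f y := setIntegral_le_integral hfi (Eventually.of_forall hfn)
    _ = 4 * 4 ^ mm i * (‖x‖ / R) ^ (2 * mm i) * (R ^ 2 * Kext (mm i)) := by
        simp only [hf]
        rw [integral_const_mul, hs2]
    _ = (4 * 4 ^ mm i * Kext (mm i)) * ((‖x‖ / R) ^ (2 * mm i) * R ^ 2) := by ring
    _ = _ := by rw [pow_id hxn hR0 (by omega)]; ring

theorem sin_sym {p t : ℝ} (h0 : 0 ≤ p) (h1 : p ≤ t) (h2 : t ≤ Real.pi - p) :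
    Real.sin p ≤ Real.sin t := by
  have hp := Real.pi_pos
  rcases le_total t (Real.pi / 2) with h | h
  · exact Real.sin_le_sin_of_le_of_le_pi_div_two (by linarith) h h1
  · rw [← Real.sin_pi_sub t]
    exact Real.sin_le_sin_of_le_of_le_pi_div_two (by linarith) (by linarith) (by linarith)

/-- lower bound of the kernel far away -/
theorem GA_lower {i : Fin 2} {x y : ℂ} (hx : x ∈ Arm i) (hy : y ∈ Arm i) (h : 2 * ‖x‖ ≤ ‖y‖) :
    (pw i x).im * (pw i y).im / (12 * Real.pi * ‖pw i y‖ ^ 2) ≤ GA i x y := by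
  have hyn : 0 < ‖y‖ := norm_pos_iff.2 hy.1
  have hxn : 0 < ‖x‖ := norm_pos_iff.2 hx.1
  unfold GA
  set X := pw i x with hX
  set Y := pw i y with hY
  have hXi : 0 < X.im := pw_im_pos hx
  have hYi : 0 < Y.im := pw_im_pos hy
  have hXn : ‖X‖ = ‖x‖ ^ mm i := pw_norm i x
  have hYn : ‖Y‖ = ‖y‖ ^ mm i := pw_norm i y
  have hXpos : 0 < ‖X‖ := by rw [hXn]; positivity
  have hYpos : 0 < ‖Y‖ := by rw [hYn]; positivity
  have h2 : 8 * ‖X‖ ≤ ‖Y‖ := by
    rw [hXn, hYn]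
    have h3 : (2 * ‖x‖) ^ mm i ≤ ‖y‖ ^ mm i := pow_le_pow_left₀ (by positivity) h _
    rw [mul_pow] at h3
    have h4 : (8 : ℝ) ≤ 2 ^ mm i := by
      calc (8 : ℝ) = 2 ^ 3 := by norm_num
        _ ≤ 2 ^ mm i := pow_le_pow_right₀ (by norm_num) (mm_ge i)
    nlinarith [mul_le_mul_of_nonneg_right h4 (by positivity : 0 ≤ ‖x‖ ^ mm i)]
  have h3 : ‖Y‖ / 2 ≤ ‖X - Y‖ := by
    have := norm_sub_norm_le Y X
    rw [norm_sub_rev] at this
    linarith
  have h3' : ‖X - Y‖ ≤ 2 * ‖Y‖ := by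
    have := norm_sub_le X Y
    linarith
  have hd : 0 < ‖X - Y‖ := lt_of_lt_of_le (by positivity) h3
  have h5 : X.im ≤ ‖X‖ := (le_abs_self _).trans (Complex.abs_im_le_norm X)
  have h6 : Y.im ≤ ‖Y‖ := (le_abs_self _).trans (Complex.abs_im_le_norm Y)
  set t := 4 * X.im * Y.im / ‖X - Y‖ ^ 2 with ht
  have ht0 : 0 < t := by positivity
  have ht2 : t ≤ 2 := by
    rw [ht, div_le_iff₀ (by positivity)]
    have h7 : (‖Y‖ / 2) ^ 2 ≤ ‖X - Y‖ ^ 2 := pow_le_pow_left₀ (by positivity) h3 2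
    have h8 : X.im * Y.im ≤ ‖X‖ * ‖Y‖ := mul_le_mul h5 h6 hYi.le (by positivity)
    nlinarith
  have ht1 : X.im * Y.im / ‖Y‖ ^ 2 ≤ t := by
    rw [ht, div_le_div_iff₀ (by positivity) (by positivity)]
    have h7 : ‖X - Y‖ ^ 2 ≤ (2 * ‖Y‖) ^ 2 := pow_le_pow_left₀ (by positivity) h3' 2
    nlinarith [mul_le_mul_of_nonneg_left h7 (by positivity : 0 ≤ X.im * Y.im)]
  have hlog : t / 3 ≤ Real.log (1 + t) := by
    have h7 := Real.one_sub_inv_le_log_of_pos (show 0 < 1 + t by linarith)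
    have h8 : t / 3 ≤ 1 - (1 + t)⁻¹ := by
      rw [div_le_iff₀ (by norm_num), ← sub_nonneg]
      have h9 : (1 - (1 + t)⁻¹) * 3 - t = t * (2 - t) / (1 + t) := by
        field_simp
        ring
      rw [h9]
      exact div_nonneg (mul_nonneg ht0.le (by linarith)) (by linarith)
    linarith
  calc X.im * Y.im / (12 * Real.pi * ‖Y‖ ^ 2)
      = 1 / (4 * Real.pi) * (X.im * Y.im / ‖Y‖ ^ 2 / 3) := by field_simp; ring
    _ ≤ 1 / (4 * Real.pi) * (t / 3) := by
        refine mul_le_mul_of_nonneg_left ?_ (by positivity)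
        exact div_le_div_of_nonneg_right ht1 (by norm_num)
    _ ≤ 1 / (4 * Real.pi) * Real.log (1 + t) := mul_le_mul_of_nonneg_left hlog (by positivity)

/-- a piece of the arm -/
def Sreg (i : Fin 2) : Set ℂ :=
  {z | 1 < ‖z‖ ∧ ‖z‖ < 2 ∧ al i + Real.pi / (4 * mm i) < Complex.arg z ∧
    Complex.arg z < al i + 3 * Real.pi / (4 * mm i)}

theorem Sreg_arm {i : Fin 2} {z : ℂ} (hz : z ∈ Sreg i) : z ∈ Arm i := by
  obtain ⟨h1, h2, h3, h4⟩ := hz
  have hm : (0 : ℝ) < mm i := by exact_mod_cast mm_pos i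
  have hp := Real.pi_pos
  refine ⟨fun h => ?_, ?_, ?_⟩
  · rw [h, norm_zero] at h1; linarith
  · have : 0 < Real.pi / (4 * mm i) := by positivity
    linarith
  · rw [be_eq]
    have h5 : 3 * Real.pi / (4 * mm i) < Real.pi / mm i := by
      rw [div_lt_div_iff₀ (by positivity) hm]
      nlinarith
    linarith

theorem Sreg_sin {i : Fin 2} {z : ℂ} (hz : z ∈ Sreg i) :
    1 / 2 ≤ Real.sin (mm i * (Complex.arg z - al i)) := by
  obtain ⟨h1, h2, h3, h4⟩ := hz
  have hm : (0 : ℝ) < mm i := by exact_mod_cast mm_pos i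
  have hp := Real.pi_pos
  have h5 : Real.pi / 4 ≤ mm i * (Complex.arg z - al i) := by
    have h6 : Real.pi / (4 * mm i) ≤ Complex.arg z - al i := by linarith
    have h7 := mul_le_mul_of_nonneg_left h6 hm.le
    have h8 : (mm i : ℝ) * (Real.pi / (4 * mm i)) = Real.pi / 4 := by field_simp
    rwa [h8] at h7
  have h6 : mm i * (Complex.arg z - al i) ≤ 3 * Real.pi / 4 := by
    have h6 : Complex.arg z - al i ≤ 3 * Real.pi / (4 * mm i) := by linarith
    have h7 := mul_le_mul_of_nonneg_left h6 hm.le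
    have h8 : (mm i : ℝ) * (3 * Real.pi / (4 * mm i)) = 3 * Real.pi / 4 := by field_simp
    rwa [h8] at h7
  rw [← Real.sin_pi_div_six]
  exact sin_sym (by linarith) (by linarith) (by linarith)

theorem Sreg_open (i : Fin 2) : IsOpen (Sreg i) := by
  have h1 : IsOpen (Complex.slitPlane ∩ Complex.arg ⁻¹' (Ioo (al i + Real.pi / (4 * mm i))
      (al i + 3 * Real.pi / (4 * mm i)))) := by
    refine ContinuousOn.isOpen_inter_preimage ?_ Complex.isOpen_slitPlane isOpen_Ioo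
    intro z hz
    exact (Complex.continuousAt_arg hz).continuousWithinAt
  have h2 : IsOpen {z : ℂ | 1 < ‖z‖} := isOpen_lt continuous_const continuous_norm
  have h3 : IsOpen {z : ℂ | ‖z‖ < 2} := isOpen_lt continuous_norm continuous_const
  have h4 : Sreg i = {z : ℂ | 1 < ‖z‖} ∩ ({z : ℂ | ‖z‖ < 2} ∩ (Complex.slitPlane ∩
      Complex.arg ⁻¹' (Ioo (al i + Real.pi / (4 * mm i))
      (al i + 3 * Real.pi / (4 * mm i))))) := by
    ext z
    constructor
    · intro hz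
      have hq := arm_qd (Sreg_arm hz)
      exact ⟨hz.1, hz.2.1, Or.inl hq.1, hz.2.2⟩
    · rintro ⟨g1, g2, -, g3⟩
      exact ⟨g1, g2, g3⟩
  rw [h4]
  exact h2.inter (h3.inter h1)

theorem Sreg_nonempty (i : Fin 2) : (Sreg i).Nonempty := by
  have hm : (0 : ℝ) < mm i := by exact_mod_cast mm_pos i
  have hp := Real.pi_pos
  have h0 := th0_pos
  set t : ℝ := al i + Real.pi / (2 * mm i) with ht
  have h27 := th0_27
  have hbe := be_le i
  rw [be_eq] at hbe
  have hlt : Real.pi / (2 * mm i) ≤ Real.pi / mm i :=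
    div_le_div_of_nonneg_left hp.le hm (by linarith)
  have hal := al_ge i
  have ht1 : 0 < t := by
    have h9 : 0 < Real.pi / (2 * mm i) := by positivity
    rw [ht]; linarith
  have ht2 : t < Real.pi := by rw [ht]; linarith
  refine ⟨((3 / 2 : ℝ) : ℂ) * Complex.exp ((t : ℂ) * Complex.I), ?_⟩
  have hn : ‖((3 / 2 : ℝ) : ℂ) * Complex.exp ((t : ℂ) * Complex.I)‖ = 3 / 2 := by
    rw [norm_mul, Complex.norm_exp_ofReal_mul_I, mul_one, Complex.norm_real]
    norm_num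
  have ha : Complex.arg (((3 / 2 : ℝ) : ℂ) * Complex.exp ((t : ℂ) * Complex.I)) = t := by
    rw [Complex.arg_real_mul _ (by norm_num : (0 : ℝ) < 3 / 2), Complex.arg_exp_mul_I,
      toIocMod_eq_self]
    constructor <;> linarith
  refine ⟨by rw [hn]; norm_num, by rw [hn]; norm_num, ?_, ?_⟩
  · rw [ha, ht]
    have : Real.pi / (4 * mm i) < Real.pi / (2 * mm i) :=
      div_lt_div_of_pos_left hp (by positivity) (by linarith)
    linarith
  · rw [ha, ht]
    have : Real.pi / (2 * mm i) < 3 * Real.pi / (4 * mm i) := by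
      rw [div_lt_div_iff₀ (by positivity) (by positivity)]
      nlinarith
    linarith

theorem Sreg_vol (i : Fin 2) : 0 < (volume (Sreg i)).toReal := by
  refine ENNReal.toReal_pos ((Sreg_open i).measure_pos volume (Sreg_nonempty i)).ne' ?_
  refine ((measure_mono (fun z hz => ?_)).trans_lt
    (measure_ball_lt_top (x := (0 : ℂ)) (r := 2))).ne
  rw [mem_ball_zero_iff]
  exact hz.2.1

/-- lower bound of the tail -/
theorem S3_lower (h1 : ST_S1) (i : Fin 2) (a b : ℝ) (ha : al i < a) (hb : b < be i) :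
    ∃ c : ℝ, 0 < c ∧ ∀ x, x ≠ 0 →
    Complex.arg x ∈ Icc a b → ∀ R : ℝ, 2 * ‖x‖ ≤ R →
    c * ‖x‖ ^ 2 * (‖x‖ / R) ^ (2 * mm i - 2) ≤ ∫ y in Arm i \ ArmR i R, (GA i x y) ^ 2 := by
  have hm : (0 : ℝ) < mm i := by exact_mod_cast mm_pos i
  have hm3 := mm_ge i
  have hp := Real.pi_pos
  set p : ℝ := min (mm i * (a - al i)) (Real.pi - mm i * (b - al i)) with hpdef
  have hbm : mm i * (b - al i) < Real.pi := by
    rw [be_eq] at hb
    have h2 : b - al i < Real.pi / mm i := by linarith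
    have h3 := mul_lt_mul_of_pos_left h2 hm
    rwa [mul_div_cancel₀ _ hm.ne'] at h3
  have hp0 : 0 < p := lt_min (mul_pos hm (by linarith)) (by linarith)
  by_cases hab : a ≤ b
  swap
  · refine ⟨1, one_pos, fun x hx hax => ?_⟩
    exact absurd (hax.1.trans hax.2) hab
  have hpx : ∀ t ∈ Icc a b, p ≤ mm i * (t - al i) ∧ mm i * (t - al i) ≤ Real.pi - p := by
    intro t ht
    have h2 : mm i * (a - al i) ≤ mm i * (t - al i) :=
      mul_le_mul_of_nonneg_left (by linarith [ht.1]) hm.le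
    have h3 : mm i * (t - al i) ≤ mm i * (b - al i) :=
      mul_le_mul_of_nonneg_left (by linarith [ht.2]) hm.le
    exact ⟨(min_le_left _ _).trans h2, by linarith [min_le_right (mm i * (a - al i)) (Real.pi - mm i * (b - al i))]⟩
  have hppi : p ≤ Real.pi / 2 := by
    have := hpx a ⟨le_rfl, hab⟩
    linarith
  have hsp : 0 < Real.sin p := Real.sin_pos_of_pos_of_lt_pi hp0 (by linarith)
  set κ : ℝ := Real.sin p / (24 * Real.pi * 2 ^ mm i) with hκ
  have hκ0 : 0 < κ := by positivity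
  refine ⟨κ ^ 2 * (volume (Sreg i)).toReal, mul_pos (by positivity) (Sreg_vol i), ?_⟩
  intro x hx0 hax R hR
  have hxn : 0 < ‖x‖ := norm_pos_iff.2 hx0
  have hR0 : 0 < R := by linarith
  have hx : x ∈ Arm i := ⟨hx0, by linarith [hax.1], by linarith [hax.2]⟩
  have hint := (h1.1 i x hx).1
  set SR : Set ℂ := R • Sreg i with hSR
  have hsub : SR ⊆ Arm i \ ArmR i R := by
    rintro _ ⟨z, hz, rfl⟩
    have e1 : R • z = (R : ℂ) * z := rfl
    have hz1 : 1 < ‖z‖ := hz.1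
    refine ⟨?_, fun hcon => ?_⟩
    · show R • z ∈ Arm i
      rw [e1]
      exact arm_smul hR0 (Sreg_arm hz)
    · have h2 : ‖R • z‖ < R := hcon.2
      rw [norm_smul, Real.norm_of_nonneg hR0.le] at h2
      nlinarith
  have hSRm : MeasurableSet SR := (Sreg_open i).measurableSet.const_smul₀ R
  have hvol : (volume SR).toReal = R ^ 2 * (volume (Sreg i)).toReal := by
    rw [hSR, Measure.addHaar_smul, Complex.finrank_real_complex, ENNReal.toReal_mul,
      ENNReal.toReal_ofReal (abs_nonneg _), abs_of_pos (by positivity)]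
  have hfin : volume SR ≠ ⊤ := by
    intro h
    have : (volume SR).toReal = 0 := by rw [h]; rfl
    rw [hvol] at this
    have h2 : 0 < R ^ 2 * (volume (Sreg i)).toReal := mul_pos (by positivity) (Sreg_vol i)
    linarith
  have hlow : ∀ y ∈ SR, κ ^ 2 * (‖x‖ / R) ^ (2 * mm i) ≤ (GA i x y) ^ 2 := by
    rintro _ ⟨z, hz, rfl⟩
    have e1 : R • z = (R : ℂ) * z := rfl
    show κ ^ 2 * (‖x‖ / R) ^ (2 * mm i) ≤ (GA i x (R • z)) ^ 2
    rw [e1]
    have hyA : (R : ℂ) * z ∈ Arm i := arm_smul hR0 (Sreg_arm hz)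
    have hyn : ‖(R : ℂ) * z‖ = R * ‖z‖ := by
      rw [norm_mul, Complex.norm_real, Real.norm_of_nonneg hR0.le]
    have hz1 : 1 < ‖z‖ := hz.1
    have hz2 : ‖z‖ < 2 := hz.2.1
    have h2 := GA_lower hx hyA (by rw [hyn]; nlinarith)
    have h3 : Real.sin p * ‖x‖ ^ mm i ≤ (pw i x).im := by
      rw [pw_im, mul_comm]
      refine mul_le_mul_of_nonneg_left ?_ (by positivity)
      exact sin_sym hp0.le (hpx _ hax).1 (hpx _ hax).2
    have h4 : ‖pw i ((R : ℂ) * z)‖ / 2 ≤ (pw i ((R : ℂ) * z)).im := by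
      rw [pw_im, pw_norm, Complex.arg_real_mul _ hR0]
      have h5 := Sreg_sin hz
      have h6 : 0 ≤ ‖(R : ℂ) * z‖ ^ mm i := by positivity
      nlinarith [mul_le_mul_of_nonneg_left h5 h6]
    set Y := pw i ((R : ℂ) * z) with hY
    have hYn : ‖Y‖ = (R * ‖z‖) ^ mm i := by rw [hY, pw_norm, hyn]
    have hYpos : 0 < ‖Y‖ := by rw [hYn]; positivity
    have hYle : ‖Y‖ ≤ 2 ^ mm i * R ^ mm i := by
      rw [hYn, ← mul_pow]
      exact pow_le_pow_left₀ (by positivity) (by nlinarith) _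
    have h5 : κ * (‖x‖ / R) ^ mm i ≤ GA i x ((R : ℂ) * z) := by
      refine le_trans ?_ h2
      have h6 : Real.sin p * ‖x‖ ^ mm i * (‖Y‖ / 2) ≤ (pw i x).im * Y.im :=
        mul_le_mul h3 h4 (by positivity) (pw_im_pos hx).le
      calc κ * (‖x‖ / R) ^ mm i
          = Real.sin p * ‖x‖ ^ mm i / (24 * Real.pi * (2 ^ mm i * R ^ mm i)) := by
            rw [hκ, div_pow]; field_simp
        _ ≤ Real.sin p * ‖x‖ ^ mm i / (24 * Real.pi * ‖Y‖) :=
            div_le_div_of_nonneg_left (by positivity) (by positivity)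
              (mul_le_mul_of_nonneg_left hYle (by positivity))
        _ = Real.sin p * ‖x‖ ^ mm i * (‖Y‖ / 2) / (12 * Real.pi * ‖Y‖ ^ 2) := by
            field_simp; ring
        _ ≤ (pw i x).im * Y.im / (12 * Real.pi * ‖Y‖ ^ 2) :=
            div_le_div_of_nonneg_right h6 (by positivity)
    calc κ ^ 2 * (‖x‖ / R) ^ (2 * mm i) = (κ * (‖x‖ / R) ^ mm i) ^ 2 := by
          rw [mul_pow, ← pow_mul, mul_comm (mm i) 2]
      _ ≤ _ := pow_le_pow_left₀ (by positivity) h5 2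
  calc κ ^ 2 * (volume (Sreg i)).toReal * ‖x‖ ^ 2 * (‖x‖ / R) ^ (2 * mm i - 2)
      = κ ^ 2 * (volume (Sreg i)).toReal * (‖x‖ ^ 2 * (‖x‖ / R) ^ (2 * mm i - 2)) := by ring
    _ = κ ^ 2 * (volume (Sreg i)).toReal * ((‖x‖ / R) ^ (2 * mm i) * R ^ 2) := by
        rw [pow_id hxn hR0 (by omega)]
    _ = (volume SR).toReal * (κ ^ 2 * (‖x‖ / R) ^ (2 * mm i)) := by rw [hvol]; ring
    _ = ∫ y in SR, κ ^ 2 * (‖x‖ / R) ^ (2 * mm i) := by
        rw [setIntegral_const, smul_eq_mul]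
        rfl
    _ ≤ ∫ y in SR, (GA i x y) ^ 2 := by
        refine setIntegral_mono_on ?_ (hint.mono_set (hsub.trans sdiff_subset)) hSRm hlow
        exact integrableOn_const hfin
    _ ≤ ∫ y in Arm i \ ArmR i R, (GA i x y) ^ 2 := by
        refine setIntegral_mono_set (hint.mono_set sdiff_subset) ?_ (LE.le.eventuallyLE hsub)
        exact Eventually.of_forall (fun y => by positivity)

theorem st_S3 (h1 : ST_S1) : ST_S3 := by
  refine ⟨⟨∑ i, (4 * 4 ^ mm i * Kext (mm i)) + 1, ?_, ?_⟩, fun i a b ha hb => S3_lower h1 i a b ha hb⟩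
  · have : 0 ≤ ∑ i, (4 * 4 ^ mm i * Kext (mm i)) :=
      Finset.sum_nonneg (fun i _ => mul_nonneg (by positivity) (Kext_nonneg _))
    linarith
  · intro i x hx R hR
    have hxn : 0 < ‖x‖ := norm_pos_iff.2 hx.1
    have hR0 : 0 < R := by linarith
    refine (S3_upper h1 i x hx R hR).trans ?_
    have h2 : 4 * 4 ^ mm i * Kext (mm i) ≤ ∑ i, (4 * 4 ^ mm i * Kext (mm i)) :=
      Finset.single_le_sum (f := fun i => 4 * 4 ^ mm i * Kext (mm i))
        (fun i _ => mul_nonneg (by positivity) (Kext_nonneg _)) (Finset.mem_univ i)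
    refine mul_le_mul_of_nonneg_right ?_ (by positivity)
    refine mul_le_mul_of_nonneg_right ?_ (by positivity)
    linarith

theorem GAR_sq_int {i : Fin 2} {x : ℂ} {R : ℝ} (hR0 : 0 < R) (hx : x ∈ ArmR i R)
    (hint : IntegrableOn (fun y => (GA i x y) ^ 2) (Arm i)) :
    IntegrableOn (fun y => (GAR i R x y) ^ 2) (ArmR i R) := by
  have hi2 : IntegrableOn (fun y => (GA i x y) ^ 2) (ArmR i R) := hint.mono_set inter_subset_left
  refine Integrable.mono' hi2 ((meas_GAR i R x).pow_const 2).aestronglyMeasurable ?_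
  have hne : ∀ᵐ y ∂(volume.restrict (ArmR i R)), y ≠ x := by
    refine ae_restrict_of_ae ?_
    rw [ae_iff]
    have : {y : ℂ | ¬ y ≠ x} = {x} := by ext y; simp
    rw [this]
    exact measure_singleton x
  filter_upwards [hne, ae_restrict_mem (meas_armR i R)] with y hy hyA
  obtain ⟨g1, g2⟩ := GAR_bounds hR0 hx hyA (Ne.symm hy)
  rw [Real.norm_of_nonneg (by positivity)]
  exact pow_le_pow_left₀ g1 g2 2

theorem st_S4 (h1 : ST_S1) (h2 : ST_S2) : ST_S4 := by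
  obtain ⟨-, C2, hC2, h2⟩ := h2
  obtain ⟨⟨C3, hC3, h3⟩, -⟩ := st_S3 h1
  refine ⟨C3 + 8 * C2, by positivity, ?_⟩
  intro i x hx R hR
  have hxn : 0 < ‖x‖ := norm_pos_iff.2 hx.1
  have hR0 : 0 < R := by linarith
  have hm3 := mm_ge i
  have hxR : x ∈ ArmR i R := ⟨hx, by linarith⟩
  have hint := (h1.1 i x hx).1
  have hint2 : IntegrableOn (fun y => (GA i x y) ^ 2) (ArmR i R) :=
    hint.mono_set inter_subset_left
  have hGR := GAR_sq_int hR0 hxR hint
  refine ⟨hGR, ?_⟩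
  obtain ⟨h21, h22⟩ := h2 i x hx R hR0
  set K : ℝ := 4 * (‖x‖ / R ^ 2) ^ mm i with hK
  have hK0 : 0 ≤ K := by positivity
  have hdiff := MeasureTheory.setIntegral_sdiff (meas_armR i R) hint (fun z hz => hz.1 : ArmR i R ⊆ Arm i)
  have h3' := h3 i x hx R hR
  have hlow : (∫ y in ArmR i R, (GA i x y) ^ 2) - K * (∫ y in ArmR i R, GA i x y * ‖y‖ ^ mm i) ≤
      ∫ y in ArmR i R, (GAR i R x y) ^ 2 := by
    rw [← integral_const_mul, ← integral_sub hint2 (h21.const_mul K)]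
    refine integral_mono_ae (hint2.sub (h21.const_mul K)) hGR ?_
    have hne : ∀ᵐ y ∂(volume.restrict (ArmR i R)), y ≠ x := by
      refine ae_restrict_of_ae ?_
      rw [ae_iff]
      have : {y : ℂ | ¬ y ≠ x} = {x} := by ext y; simp
      rw [this]
      exact measure_singleton x
    filter_upwards [hne, ae_restrict_mem (meas_armR i R)] with y hy hyA
    have hyn : 0 < ‖y‖ := norm_pos_iff.2 hyA.1.1
    obtain ⟨g1, g2⟩ := GAR_bounds hR0 hxR hyA (Ne.symm hy)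
    have hσ0 : 0 < R ^ 2 / ‖y‖ ^ 2 := by positivity
    have hy' : ((R ^ 2 / ‖y‖ ^ 2 : ℝ) : ℂ) * y ∈ Arm i := arm_smul hσ0 hyA.1
    have hyn' : ‖((R ^ 2 / ‖y‖ ^ 2 : ℝ) : ℂ) * y‖ = R ^ 2 / ‖y‖ := by
      rw [norm_mul, Complex.norm_real, Real.norm_of_nonneg hσ0.le]
      field_simp
    have hgs : GA i x ((R : ℂ) ^ 2 / starRingEnd ℂ y) ≤ 2 * (‖x‖ / (R ^ 2 / ‖y‖)) ^ mm i := by
      rw [inv_eq hyA.1.1, GA_symm, ← hyn']
      refine GA_far hy' hx ?_
      rw [hyn', le_div_iff₀ hyn]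
      have h5 : ‖y‖ < R := hyA.2
      nlinarith
    have hgs2 : 2 * (‖x‖ / (R ^ 2 / ‖y‖)) ^ mm i = K / 2 * ‖y‖ ^ mm i := by
      rw [hK]
      have h5 : ‖x‖ / (R ^ 2 / ‖y‖) = (‖x‖ / R ^ 2) * ‖y‖ := by field_simp
      rw [h5, mul_pow]
      ring
    rw [hgs2] at hgs
    have hGA := GA_nonneg hx hyA.1
    show (GA i x y) ^ 2 - K * (GA i x y * ‖y‖ ^ mm i) ≤ (GAR i R x y) ^ 2
    have h6 : GAR i R x y = GA i x y - GA i x ((R : ℂ) ^ 2 / starRingEnd ℂ y) := rfl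
    rw [h6]
    nlinarith [mul_le_mul_of_nonneg_left hgs hGA, sq_nonneg (GA i x ((R : ℂ) ^ 2 / starRingEnd ℂ y))]
  have hKb : K * (∫ y in ArmR i R, GA i x y * ‖y‖ ^ mm i) ≤
      8 * C2 * ‖x‖ ^ 2 * (‖x‖ / R) ^ (2 * mm i - 2) := by
    have h5 : ‖x‖ ^ 2 + R ^ 2 ≤ 2 * R ^ 2 := by nlinarith
    calc K * (∫ y in ArmR i R, GA i x y * ‖y‖ ^ mm i)
        ≤ K * (C2 * ‖x‖ ^ mm i * (‖x‖ ^ 2 + R ^ 2)) := mul_le_mul_of_nonneg_left h22 hK0
      _ ≤ K * (C2 * ‖x‖ ^ mm i * (2 * R ^ 2)) := by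
          refine mul_le_mul_of_nonneg_left ?_ hK0
          exact mul_le_mul_of_nonneg_left h5 (by positivity)
      _ = 8 * C2 * ((‖x‖ / R) ^ (2 * mm i) * R ^ 2) := by
          rw [hK, div_pow, div_pow, ← pow_mul]
          have h7 : ‖x‖ ^ (2 * mm i) = ‖x‖ ^ mm i * ‖x‖ ^ mm i := by rw [two_mul, pow_add]
          rw [h7]
          ring
      _ = 8 * C2 * ‖x‖ ^ 2 * (‖x‖ / R) ^ (2 * mm i - 2) := by
          rw [pow_id hxn hR0 (by omega)]; ring
  have hfin : (C3 + 8 * C2) * ‖x‖ ^ 2 * (‖x‖ / R) ^ (2 * mm i - 2) =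
      C3 * ‖x‖ ^ 2 * (‖x‖ / R) ^ (2 * mm i - 2) + 8 * C2 * ‖x‖ ^ 2 * (‖x‖ / R) ^ (2 * mm i - 2) := by
    ring
  rw [hfin]
  linarith

end LEP.S34
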