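import Pool.Agent.Helper14.LE.Stmts
import Pool.Agent.Helper55.LE.S34

open MeasureTheory Set Filter Topology

noncomputable section

namespace LEP.E2

open LEP LEP.SEC0 LEP.S34

theorem st_E2 (hT2 : ST_T2) (hS1 : ST_S1) (hS4 : ST_S4) (hU2 : ST_U2) (hG : ST_GEO) : ST_E2 := by
  obtain ⟨C, hC, h4⟩ := hS4
  obtain ⟨CU, -, hU⟩ := hU2
  refine ⟨400 * C, by positivity, ?_⟩
  intro Rv hRv i x hx hR
  have hRv1 : ∀ i, 1 ≤ Rv i := fun i => by have := hRv i; linarith
  obtain ⟨hP, -, -, -, -, hsub, -, -⟩ := hG.2 Rv hRv1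
  have hxn : 0 < ‖x‖ := norm_pos_iff.2 hx.1
  have hxR : x ∈ ArmR i (Rv i) := ⟨hx, by linarith⟩
  have hxD : x ∈ Ddom (R0 Rv) := hsub i hxR
  obtain ⟨hint, -, -, -, -, hGam, -⟩ := hT2 (R0 Rv) hP
  have hR0 : 0 < Rv i := by have := hRv1 i; linarith
  obtain ⟨hI4, h4⟩ := h4 i x hx (Rv i) hR
  have hstep : ∫ y in ArmR i (Rv i), (GAR i (Rv i) x y) ^ 2 ≤
      ∫ z in Ddom (R0 Rv), (gD (Ddom (R0 Rv)) x z) ^ 2 := by
    calc ∫ y in ArmR i (Rv i), (GAR i (Rv i) x y) ^ 2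
        ≤ ∫ z in ArmR i (Rv i), (gD (Ddom (R0 Rv)) x z) ^ 2 := by
          refine integral_mono_ae hI4 ((hint x hxD).mono_set (hsub i)) ?_
          have hne : ∀ᵐ y ∂(volume.restrict (ArmR i (Rv i))), y ≠ x := by
            refine ae_restrict_of_ae ?_
            rw [ae_iff]
            have : {y : ℂ | ¬ y ≠ x} = {x} := by ext y; simp
            rw [this]
            exact measure_singleton x
          filter_upwards [hne, ae_restrict_mem (meas_armR i (Rv i))] with y hy hyA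
          have h1 := (GAR_bounds hR0 hxR hyA (Ne.symm hy)).1
          have h2 := (hU Rv hRv i x hxR y hyA (Ne.symm hy)).1
          exact pow_le_pow_left₀ h1 h2 2
      _ ≤ ∫ z in Ddom (R0 Rv), (gD (Ddom (R0 Rv)) x z) ^ 2 := by
          refine setIntegral_mono_set (hint x hxD) ?_ ?_
          · exact Eventually.of_forall (fun z => by positivity)
          · exact (hsub i).eventuallyLE
  obtain ⟨hp1, hp2⟩ := arm_psi hx
  have hpsi : 0 < psi x := by linarith [div_pos hxn (by norm_num : (0:ℝ) < 20)]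
  have hS := (hS1.1 i x hx).2
  set Q : ℝ := (‖x‖ / Rv i) ^ (2 * mm i - 2) with hQ
  have hQ0 : 0 ≤ Q := by positivity
  unfold Gt
  rw [hGam x hxD, le_div_iff₀ (by positivity)]
  have hx2 : ‖x‖ ^ 2 ≤ 400 * psi x ^ 2 := by
    have : ‖x‖ ≤ 20 * psi x := by linarith
    nlinarith
  have hCQ : C * ‖x‖ ^ 2 * Q ≤ 400 * C * Q * psi x ^ 2 := by
    have := mul_le_mul_of_nonneg_left hx2 (mul_nonneg hC.le hQ0)
    linarith
  have : (gam i (Complex.arg x) - 400 * C * Q) * (psi x * psi x) =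
      gam i (Complex.arg x) * psi x ^ 2 - 400 * C * Q * psi x ^ 2 := by ring
  rw [this]
  rw [hS] at h4
  linarith

end LEP.E2
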