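import Pool.Agent.Helper14.LE.Stmts

/-! SEC0 : elementary facts on the sector kernels -/

open MeasureTheory Set Filter Topology

noncomputable section

namespace LEP.SEC0

open LEP

theorem th0_pos : 0 < th0 := by unfold th0; positivity

theorem th0_27 : 27 * th0 = Real.pi / 2 := by unfold th0; ring

theorem al_ge (i : Fin 2) : th0 ≤ al i := by
  have h := th0_pos
  fin_cases i
  · exact le_rfl
  · show th0 ≤ 20 * th0
    linarith

theorem mm_pos (i : Fin 2) : 0 < mm i := by fin_cases i <;> decide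

theorem mm_ge (i : Fin 2) : 3 ≤ mm i := by fin_cases i <;> decide

theorem be_eq (i : Fin 2) : be i = al i + Real.pi / mm i := rfl

theorem be_0 : be 0 = 19 * th0 := by
  show th0 + Real.pi / ((3 : ℕ) : ℝ) = 19 * th0
  have := th0_27
  unfold th0 at *
  push_cast
  ring

theorem be_1 : be 1 = 26 * th0 := by
  show 20 * th0 + Real.pi / ((9 : ℕ) : ℝ) = 26 * th0
  unfold th0
  push_cast
  ring

theorem be_le (i : Fin 2) : be i ≤ 26 * th0 := by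
  have h := th0_pos
  fin_cases i
  · show be 0 ≤ 26 * th0
    rw [be_0]; linarith
  · show be 1 ≤ 26 * th0
    rw [be_1]

theorem arm_arg {i : Fin 2} {x : ℂ} (hx : x ∈ Arm i) :
    x ≠ 0 ∧ th0 < Complex.arg x ∧ Complex.arg x < 26 * th0 :=
  ⟨hx.1, lt_of_le_of_lt (al_ge i) hx.2.1, lt_of_lt_of_le hx.2.2 (be_le i)⟩

theorem re_eq (x : ℂ) : x.re = ‖x‖ * Real.cos (Complex.arg x) := (Complex.norm_mul_cos_arg x).symm

theorem im_eq (x : ℂ) : x.im = ‖x‖ * Real.sin (Complex.arg x) := (Complex.norm_mul_sin_arg x).symm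

theorem psi_eq {x : ℂ} (hx : x ≠ 0) : psi x = ‖x‖ * (Real.sin (2 * Complex.arg x) / 2) := by
  have h0 : ‖x‖ ≠ 0 := norm_ne_zero_iff.2 hx
  unfold psi
  rw [re_eq, im_eq, Real.sin_two_mul]
  field_simp

theorem sin_small : 1 / 10 ≤ Real.sin (2 * th0) := by
  have hp := Real.pi_gt_three
  have hp4 := Real.pi_le_four
  have h1 : 0 < 2 * th0 := by have := th0_pos; linarith
  have h2 : 2 * th0 ≤ 1 := by unfold th0; linarith
  have h3 := Real.sin_gt_sub_cube h1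
  have h4 : 2 * th0 = Real.pi / 27 := by unfold th0; ring
  have h5 : 1 / 9 < 2 * th0 := by rw [h4]; linarith
  have h6 : 2 * th0 ≤ 4 / 27 := by rw [h4]; linarith
  have h7 : (2 * th0) ^ 3 / 6 ≤ 1 / 90 := by
    have h8 : (2 * th0) ^ 3 ≤ (4 / 27) ^ 3 := pow_le_pow_left₀ h1.le h6 3
    have h9 : ((4 : ℝ) / 27) ^ 3 / 6 ≤ 1 / 90 := by norm_num
    linarith
  linarith

theorem sin_arm {t : ℝ} (h1 : th0 ≤ t) (h2 : t ≤ 26 * th0) : 1 / 10 ≤ Real.sin (2 * t) := by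
  have h27 := th0_27
  have h0 := th0_pos
  rcases le_total (2 * t) (Real.pi / 2) with h | h
  · exact sin_small.trans (Real.sin_le_sin_of_le_of_le_pi_div_two (by linarith) h (by linarith))
  · rw [← Real.sin_pi_sub]
    exact sin_small.trans (Real.sin_le_sin_of_le_of_le_pi_div_two (by linarith) (by linarith)
      (by linarith))

theorem arm_qd {i : Fin 2} {x : ℂ} (hx : x ∈ Arm i) : x ∈ Qd := by
  obtain ⟨h0, h1, h2⟩ := arm_arg hx
  have h27 := th0_27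
  have hp := th0_pos
  have hn : 0 < ‖x‖ := norm_pos_iff.2 h0
  refine ⟨?_, ?_⟩
  · rw [re_eq]
    exact mul_pos hn (Real.cos_pos_of_mem_Ioo ⟨by linarith, by linarith⟩)
  · rw [im_eq]
    exact mul_pos hn (Real.sin_pos_of_pos_of_lt_pi (by linarith) (by linarith))

theorem arm_psi {i : Fin 2} {x : ℂ} (hx : x ∈ Arm i) : ‖x‖ / 20 ≤ psi x ∧ psi x ≤ ‖x‖ / 2 := by
  obtain ⟨h0, h1, h2⟩ := arm_arg hx
  have hn : 0 < ‖x‖ := norm_pos_iff.2 h0
  rw [psi_eq h0]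
  have h3 := sin_arm h1.le h2.le
  have h4 := Real.sin_le_one (2 * Complex.arg x)
  constructor
  · calc ‖x‖ / 20 = ‖x‖ * (1 / 20) := by ring
      _ ≤ _ := mul_le_mul_of_nonneg_left (by linarith) hn.le
  · calc _ ≤ ‖x‖ * (1 / 2) := mul_le_mul_of_nonneg_left (by linarith) hn.le
      _ = ‖x‖ / 2 := by ring

theorem pw_eq (i : Fin 2) (x : ℂ) : pw i x =
    ((‖x‖ ^ mm i : ℝ) : ℂ) * Complex.exp (((mm i * (Complex.arg x - al i) : ℝ) : ℂ) * Complex.I) := by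
  unfold pw
  conv_lhs => rw [← Complex.norm_mul_exp_arg_mul_I x]
  have h1 : Complex.exp (-(al i : ℂ) * Complex.I) *
      (((‖x‖ : ℝ) : ℂ) * Complex.exp ((Complex.arg x : ℂ) * Complex.I)) =
      ((‖x‖ : ℝ) : ℂ) * Complex.exp (((Complex.arg x - al i : ℝ) : ℂ) * Complex.I) := by
    rw [mul_left_comm, ← Complex.exp_add]
    congr 2
    push_cast
    ring
  rw [h1, mul_pow, ← Complex.exp_nat_mul]
  congr 1
  · push_cast
    rfl
  · congr 1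
    push_cast
    ring

theorem pw_norm (i : Fin 2) (x : ℂ) : ‖pw i x‖ = ‖x‖ ^ mm i := by
  rw [pw_eq, norm_mul, Complex.norm_exp_ofReal_mul_I, mul_one, Complex.norm_real,
    Real.norm_of_nonneg (by positivity)]

theorem pw_im (i : Fin 2) (x : ℂ) :
    (pw i x).im = ‖x‖ ^ mm i * Real.sin (mm i * (Complex.arg x - al i)) := by
  rw [pw_eq, Complex.im_ofReal_mul, Complex.exp_ofReal_mul_I_im]

theorem arm_mul {i : Fin 2} {x : ℂ} (hx : x ∈ Arm i) :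
    0 < (mm i : ℝ) * (Complex.arg x - al i) ∧ (mm i : ℝ) * (Complex.arg x - al i) < Real.pi := by
  have hm : (0 : ℝ) < mm i := by exact_mod_cast mm_pos i
  refine ⟨mul_pos hm (by linarith [hx.2.1]), ?_⟩
  have h1 := hx.2.2
  rw [be_eq] at h1
  have h2 : Complex.arg x - al i < Real.pi / mm i := by linarith
  have h3 := mul_lt_mul_of_pos_left h2 hm
  rwa [mul_div_cancel₀ _ hm.ne'] at h3

theorem pw_im_pos {i : Fin 2} {x : ℂ} (hx : x ∈ Arm i) : 0 < (pw i x).im := by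
  rw [pw_im]
  have hn : 0 < ‖x‖ := norm_pos_iff.2 hx.1
  obtain ⟨h1, h2⟩ := arm_mul hx
  exact mul_pos (by positivity) (Real.sin_pos_of_pos_of_lt_pi h1 h2)

theorem pw_arg {i : Fin 2} {x : ℂ} (hx : x ∈ Arm i) :
    Complex.arg (pw i x) = mm i * (Complex.arg x - al i) := by
  rw [pw_eq]
  have hn : 0 < ‖x‖ := norm_pos_iff.2 hx.1
  obtain ⟨h1, h2⟩ := arm_mul hx
  rw [Complex.arg_real_mul _ (by positivity : (0 : ℝ) < ‖x‖ ^ mm i), Complex.arg_exp_mul_I,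
    toIocMod_eq_self]
  constructor <;> linarith [Real.pi_pos]

theorem pw_inj {i : Fin 2} {x y : ℂ} (hx : x ∈ Arm i) (hy : y ∈ Arm i) (h : pw i x = pw i y) :
    x = y := by
  have h1 : ‖x‖ ^ mm i = ‖y‖ ^ mm i := by rw [← pw_norm, ← pw_norm, h]
  have h2 : ‖x‖ = ‖y‖ := (pow_left_inj₀ (norm_nonneg _) (norm_nonneg _) (mm_pos i).ne').1 h1
  have h3 : (mm i : ℝ) * (Complex.arg x - al i) = mm i * (Complex.arg y - al i) := by
    rw [← pw_arg hx, ← pw_arg hy, h]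
  have hm : (mm i : ℝ) ≠ 0 := by exact_mod_cast (mm_pos i).ne'
  have h4 := mul_left_cancel₀ hm h3
  exact Complex.ext_norm_arg h2 (by linarith)

theorem pw_smul (i : Fin 2) (t : ℝ) (x : ℂ) : pw i ((t : ℂ) * x) = ((t ^ mm i : ℝ) : ℂ) * pw i x := by
  unfold pw
  rw [mul_left_comm, mul_pow]
  push_cast
  rfl

theorem arm_smul {i : Fin 2} {t : ℝ} (ht : 0 < t) {x : ℂ} (hx : x ∈ Arm i) :
    (t : ℂ) * x ∈ Arm i := by
  refine ⟨mul_ne_zero (by exact_mod_cast ht.ne') hx.1, ?_, ?_⟩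
  · rw [Complex.arg_real_mul _ ht]; exact hx.2.1
  · rw [Complex.arg_real_mul _ ht]; exact hx.2.2

theorem GA_nonneg {i : Fin 2} {x y : ℂ} (hx : x ∈ Arm i) (hy : y ∈ Arm i) : 0 ≤ GA i x y := by
  unfold GA
  have h1 := pw_im_pos hx
  have h2 := pw_im_pos hy
  refine mul_nonneg (by positivity) (Real.log_nonneg ?_)
  have : 0 ≤ 4 * (pw i x).im * (pw i y).im / ‖pw i x - pw i y‖ ^ 2 := by positivity
  linarith

theorem GA_symm (i : Fin 2) (x y : ℂ) : GA i x y = GA i y x := by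
  unfold GA
  rw [norm_sub_rev, mul_right_comm]

theorem GA_scale (i : Fin 2) {t : ℝ} (ht : 0 < t) (x y : ℂ) : GA i (t * x) (t * y) = GA i x y := by
  unfold GA
  rw [pw_smul, pw_smul, ← mul_sub, norm_mul, Complex.norm_real,
    Real.norm_of_nonneg (by positivity : (0 : ℝ) ≤ t ^ mm i), Complex.im_ofReal_mul,
    Complex.im_ofReal_mul]
  have hs : (t ^ mm i) ^ 2 ≠ 0 := by positivity
  have h1 : 4 * (t ^ mm i * (pw i x).im) * (t ^ mm i * (pw i y).im) /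
      (t ^ mm i * ‖pw i x - pw i y‖) ^ 2 =
      4 * (pw i x).im * (pw i y).im / ‖pw i x - pw i y‖ ^ 2 := by
    rw [mul_pow, show 4 * (t ^ mm i * (pw i x).im) * (t ^ mm i * (pw i y).im) =
      (t ^ mm i) ^ 2 * (4 * (pw i x).im * (pw i y).im) by ring, mul_div_mul_left _ _ hs]
  rw [h1]

theorem inv_eq {ρ : ℝ} {y : ℂ} (hy : y ≠ 0) :
    ((ρ : ℂ) ^ 2 / starRingEnd ℂ y) = ((ρ ^ 2 / ‖y‖ ^ 2 : ℝ) : ℂ) * y := by
  have hc : starRingEnd ℂ y ≠ 0 := by simpa using hy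
  have hn : ((‖y‖ : ℝ) : ℂ) ≠ 0 := by exact_mod_cast (norm_ne_zero_iff.2 hy)
  have h1 : ((‖y‖ : ℝ) : ℂ) ^ 2 = y * starRingEnd ℂ y := (Complex.mul_conj' y).symm
  push_cast
  rw [h1]
  field_simp

theorem key_ineq {X Y : ℂ} {s : ℝ} (hs : 1 ≤ s) (h : ‖X‖ ^ 2 ≤ s * ‖Y‖ ^ 2) :
    s * ‖X - Y‖ ^ 2 ≤ ‖X - (s : ℂ) * Y‖ ^ 2 := by
  have h1 : ‖X - Y‖ ^ 2 = ‖X‖ ^ 2 + ‖Y‖ ^ 2 - 2 * (X * starRingEnd ℂ Y).re := by
    rw [← Complex.normSq_eq_norm_sq, ← Complex.normSq_eq_norm_sq, ← Complex.normSq_eq_norm_sq,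
      Complex.normSq_sub]
  have h2 : ‖X - (s : ℂ) * Y‖ ^ 2 = ‖X‖ ^ 2 + s ^ 2 * ‖Y‖ ^ 2 - 2 * (s * (X * starRingEnd ℂ Y).re) := by
    rw [← Complex.normSq_eq_norm_sq, ← Complex.normSq_eq_norm_sq, ← Complex.normSq_eq_norm_sq,
      Complex.normSq_sub, Complex.normSq_mul, Complex.normSq_ofReal]
    have h3 : (X * starRingEnd ℂ ((s : ℂ) * Y)).re = s * (X * starRingEnd ℂ Y).re := by
      rw [map_mul, Complex.conj_ofReal, mul_left_comm, Complex.re_ofReal_mul]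
    rw [h3]
    ring
  rw [h1, h2]
  nlinarith [mul_nonneg (sub_nonneg.2 hs) (sub_nonneg.2 h)]

theorem GAR_bounds {i : Fin 2} {ρ : ℝ} (hρ : 0 < ρ) {x y : ℂ} (hx : x ∈ ArmR i ρ)
    (hy : y ∈ ArmR i ρ) (hxy : x ≠ y) : 0 ≤ GAR i ρ x y ∧ GAR i ρ x y ≤ GA i x y := by
  have hy0 : y ≠ 0 := hy.1.1
  have hyn : 0 < ‖y‖ := norm_pos_iff.2 hy0
  have hxn : 0 < ‖x‖ := norm_pos_iff.2 hx.1.1
  have hσ : 1 ≤ ρ ^ 2 / ‖y‖ ^ 2 := by
    rw [le_div_iff₀ (by positivity), one_mul]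
    exact pow_le_pow_left₀ hyn.le hy.2.le 2
  have hσ0 : 0 < ρ ^ 2 / ‖y‖ ^ 2 := by positivity
  unfold GAR
  rw [inv_eq hy0]
  have hy' : ((ρ ^ 2 / ‖y‖ ^ 2 : ℝ) : ℂ) * y ∈ Arm i := arm_smul hσ0 hy.1
  have h0 := GA_nonneg hx.1 hy'
  refine ⟨?_, by linarith⟩
  rw [sub_nonneg]
  unfold GA
  rw [pw_smul]
  set s := (ρ ^ 2 / ‖y‖ ^ 2) ^ mm i with hs
  have hs1 : 1 ≤ s := one_le_pow₀ hσ
  have hs0 : 0 < s := by positivity
  set X := pw i x with hX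
  set Y := pw i y with hY
  have hXi : 0 < X.im := pw_im_pos hx.1
  have hYi : 0 < Y.im := pw_im_pos hy.1
  have hXY : 0 < ‖X - Y‖ := by
    rw [norm_pos_iff, sub_ne_zero]
    exact fun h => hxy (pw_inj hx.1 hy.1 h)
  have hnorm : ‖X‖ ^ 2 ≤ s * ‖Y‖ ^ 2 := by
    rw [hX, hY, pw_norm, pw_norm, hs, div_pow, ← pow_mul, ← pow_mul, ← pow_mul, ← pow_mul,
      mul_comm 2 (mm i), div_mul_cancel₀ _ (by positivity)]
    exact pow_le_pow_left₀ hxn.le hx.2.le _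
  have hkey := key_ineq hs1 hnorm
  have hden : 0 < ‖X - (s : ℂ) * Y‖ ^ 2 := lt_of_lt_of_le (by positivity) hkey
  refine mul_le_mul_of_nonneg_left ?_ (by positivity)
  rw [Complex.im_ofReal_mul]
  refine Real.log_le_log (by positivity) ?_
  have h1 : 4 * X.im * (s * Y.im) / ‖X - (s : ℂ) * Y‖ ^ 2 ≤ 4 * X.im * Y.im / ‖X - Y‖ ^ 2 := by
    rw [div_le_div_iff₀ hden (by positivity)]
    have h2 : 0 ≤ 4 * X.im * Y.im := by positivity
    nlinarith [mul_le_mul_of_nonneg_left hkey h2]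
  linarith

theorem GA_far {i : Fin 2} {x y : ℂ} (hx : x ∈ Arm i) (hy : y ∈ Arm i) (h : 2 * ‖y‖ ≤ ‖x‖) :
    GA i x y ≤ 2 * (‖y‖ / ‖x‖) ^ mm i := by
  have hyn : 0 < ‖y‖ := norm_pos_iff.2 hy.1
  have hxn : 0 < ‖x‖ := norm_pos_iff.2 hx.1
  unfold GA
  set X := pw i x with hX
  set Y := pw i y with hY
  have hXi : 0 < X.im := pw_im_pos hx
  have hYi : 0 < Y.im := pw_im_pos hy
  have hXn : ‖X‖ = ‖x‖ ^ mm i := pw_norm i x
  have hYn : ‖Y‖ = ‖y‖ ^ mm i := pw_norm i y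
  have hXpos : 0 < ‖X‖ := by rw [hXn]; positivity
  have hYpos : 0 < ‖Y‖ := by rw [hYn]; positivity
  have h2 : 2 * ‖Y‖ ≤ ‖X‖ := by
    rw [hXn, hYn]
    have h3 : (2 * ‖y‖) ^ mm i ≤ ‖x‖ ^ mm i := pow_le_pow_left₀ (by positivity) h _
    rw [mul_pow] at h3
    have h4 : (2 : ℝ) ≤ 2 ^ mm i := by
      calc (2 : ℝ) = 2 ^ 1 := by norm_num
        _ ≤ 2 ^ mm i := pow_le_pow_right₀ (by norm_num) (mm_pos i)
    nlinarith [mul_le_mul_of_nonneg_right h4 (by positivity : 0 ≤ ‖y‖ ^ mm i)]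
  have h3 : ‖X‖ / 2 ≤ ‖X - Y‖ := by
    have := norm_sub_norm_le X Y
    linarith
  have h4 : 4 * X.im * Y.im / ‖X - Y‖ ^ 2 ≤ 16 * (‖Y‖ / ‖X‖) := by
    have hd : 0 < ‖X - Y‖ := lt_of_lt_of_le (by positivity) h3
    rw [div_le_iff₀ (by positivity)]
    have h5 : X.im ≤ ‖X‖ := (le_abs_self _).trans (Complex.abs_im_le_norm X)
    have h6 : Y.im ≤ ‖Y‖ := (le_abs_self _).trans (Complex.abs_im_le_norm Y)
    have h7 : (‖X‖ / 2) ^ 2 ≤ ‖X - Y‖ ^ 2 := pow_le_pow_left₀ (by positivity) h3 2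
    have h8 : X.im * Y.im ≤ ‖X‖ * ‖Y‖ := mul_le_mul h5 h6 hYi.le (by positivity)
    calc 4 * X.im * Y.im ≤ 4 * (‖X‖ * ‖Y‖) := by linarith
      _ = 16 * (‖Y‖ / ‖X‖) * (‖X‖ / 2) ^ 2 := by field_simp; ring
      _ ≤ _ := mul_le_mul_of_nonneg_left h7 (by positivity)
  have h5 : Real.log (1 + 4 * X.im * Y.im / ‖X - Y‖ ^ 2) ≤ 16 * (‖Y‖ / ‖X‖) := by
    have h6 := Real.log_le_sub_one_of_pos
      (show 0 < 1 + 4 * X.im * Y.im / ‖X - Y‖ ^ 2 by positivity)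
    linarith
  have hpi := Real.pi_gt_three
  calc 1 / (4 * Real.pi) * Real.log (1 + 4 * X.im * Y.im / ‖X - Y‖ ^ 2)
      ≤ 1 / (4 * Real.pi) * (16 * (‖Y‖ / ‖X‖)) := mul_le_mul_of_nonneg_left h5 (by positivity)
    _ ≤ 2 * (‖Y‖ / ‖X‖) := by
      have h6 : 1 / (4 * Real.pi) ≤ 1 / 8 := one_div_le_one_div_of_le (by norm_num) (by linarith)
      nlinarith [mul_le_mul_of_nonneg_right h6 (by positivity : 0 ≤ 16 * (‖Y‖ / ‖X‖))]
    _ = 2 * (‖y‖ / ‖x‖) ^ mm i := by rw [hXn, hYn, div_pow]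

theorem st_SEC0 : ST_SEC0 :=
  ⟨fun i x hx => ⟨arm_qd hx, arm_psi hx⟩, fun i x hx => ⟨pw_im_pos hx, pw_norm i x, pw_im i x⟩,
    fun i x hx y hy => ⟨GA_nonneg hx hy, GA_symm i x y⟩, fun i t ht x y => GA_scale i ht x y,
    fun i t ht x hx => arm_smul ht hx,
    fun i ρ hρ x hx y hy hxy => GAR_bounds hρ hx hy hxy,
    ⟨2, by norm_num, fun i x hx y hy h => GA_far hx hy h⟩⟩

end LEP.SEC0
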